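import Pool.Agent.helper92.ISO.SpecC

/-!
# Row `iso:LEX` of project ISO (`MP_069684_lc`)
-/

set_option autoImplicit false

open Filter Topology

namespace Pool.Agent.ISO

open Pool.Agent.PB

theorem LEX_poly (A k : ℕ) : ∃ c, 1 ≤ c ∧ ∀ n : ℕ, (n + A) ^ k ≤ n ^ c + c := by
  have h0 : 1 ≤ (A + 1) ^ k := Nat.one_le_pow _ _ (by omega)
  refine ⟨k + (A + 1) ^ k, by omega, fun n => ?_⟩
  rcases Nat.lt_or_ge n 2 with hn | hn
  · have h1 : (n + A) ^ k ≤ (A + 1) ^ k := Nat.pow_le_pow_left (by omega) k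
    omega
  · have h1 : n + A ≤ (A + 1) * n := by nlinarith
    have h2 : (n + A) ^ k ≤ (A + 1) ^ k * n ^ k := by
      rw [← mul_pow]
      exact Nat.pow_le_pow_left h1 k
    have h3 : (A + 1) ^ k ≤ n ^ ((A + 1) ^ k) := (Nat.lt_pow_self (by omega)).le
    calc (n + A) ^ k ≤ n ^ ((A + 1) ^ k) * n ^ k := h2.trans (Nat.mul_le_mul_right _ h3)
      _ = n ^ (k + (A + 1) ^ k) := by rw [← pow_add, add_comm]
      _ ≤ _ := Nat.le_add_right _ _

/-- `n ^ c + c ≤ (n + c + 2) ^ (c + 1)` -/
theorem LEX_base (n c B : ℕ) (h : n + c + 2 ≤ B) : n ^ c + c ≤ B ^ (c + 1) := by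
  have h1 : n ^ c ≤ B ^ c := Nat.pow_le_pow_left (by omega) c
  have h2 : c ≤ B ^ c := (Nat.lt_pow_self (by omega)).le
  rw [pow_succ]
  nlinarith

theorem LEX_two {B x k : ℕ} (hB : 2 ≤ B) (h : x ≤ 2 * B ^ k) : x ≤ B ^ (k + 1) := by
  rw [pow_succ]
  nlinarith [Nat.zero_le (B ^ k)]

/-- the lexicographic order -/
def LEX_lt {w : ℕ} (y' y : Fin w → Bool) : Prop := toLex y' < toLex y

theorem LEX_lt_iff {w : ℕ} (y' y : Fin w → Bool) :
    LEX_lt y' y ↔ ∃ i, (∀ j, j < i → y' j = y j) ∧ (y' i = false ∧ y i = true) := by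
  have h : LEX_lt y' y ↔ ∃ i, (∀ j, j < i → y' j = y j) ∧ y' i < y i := Iff.rfl
  rw [h]
  refine exists_congr fun i => and_congr_right fun _ => ?_
  exact Bool.lt_iff

open Classical in
/-- the size of the order -/
theorem LEX_size (hCIR : CIR_stmt) {N w : ℕ} (a b : Fin w → Fin N) :
    Size std (fun Z : Fin N → Bool => decide (LEX_lt (fun j => Z (a j)) (fun j => Z (b j)))) (w * (6 * w + 5) + 1) := by
  obtain ⟨hvar, hconst, hmono, hnot, hao, hall, hex⟩ := hCIR
  have hE : ∀ i j : Fin w, Size std (fun Z : Fin N → Bool => if j < i then ((Z (a j) && Z (b j)) || (!(Z (a j)) && !(Z (b j)))) else true) 5 := by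
    intro i j
    by_cases hji : j < i
    · simp only [hji, if_true]
      have h1 := (hao N 0 0 _ _ (hvar N (a j)) (hvar N (b j))).1
      have h2 := (hao N 1 1 _ _ (hnot N 0 _ (hvar N (a j))) (hnot N 0 _ (hvar N (b j)))).1
      exact (hao N _ _ _ _ h1 h2).2
    · simp only [hji, if_false]
      exact hmono N 1 5 _ (hconst N true) (by omega)
  have hC : ∀ i : Fin w, Size std (fun Z : Fin N → Bool => decide (∀ j : Fin w, (if j < i then ((Z (a j) && Z (b j)) || (!(Z (a j)) && !(Z (b j)))) else true) = true)) (w * 6 + 1) := by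
    intro i
    have h1 := hall (Fin w) N 5 _ (fun Z : Fin N → Bool => decide (∀ j : Fin w, (if j < i then ((Z (a j) && Z (b j)) || (!(Z (a j)) && !(Z (b j)))) else true) = true)) (hE i)
      (fun x => by rw [decide_eq_true_iff])
    rw [Fintype.card_fin] at h1
    exact h1
  have hG : ∀ i : Fin w, Size std (fun Z : Fin N → Bool => (!(Z (a i)) && Z (b i)) &&
      decide (∀ j : Fin w, (if j < i then ((Z (a j) && Z (b j)) || (!(Z (a j)) && !(Z (b j)))) else true) = true)) (6 * w + 4) := by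
    intro i
    have h1 := (hao N 1 0 _ _ (hnot N 0 _ (hvar N (a i))) (hvar N (b i))).1
    exact hmono N _ _ _ (hao N _ _ _ _ h1 (hC i)).1 (by omega)
  have h2 := hex (Fin w) N (6 * w + 4) _ (fun Z : Fin N → Bool => decide (LEX_lt (fun j => Z (a j)) (fun j => Z (b j)))) hG (by
    intro Z
    rw [decide_eq_true_iff, LEX_lt_iff]
    refine exists_congr fun i => ?_
    rw [Bool.and_eq_true, Bool.and_eq_true, decide_eq_true_iff, Bool.not_eq_true', and_comm]
    refine and_congr_right fun _ => forall_congr' fun j => ?_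
    by_cases hji : j < i
    · simp only [hji, if_true, forall_true_left]
      cases Z (a j) <;> cases Z (b j) <;> simp
    · simp only [hji, if_false, false_imp_iff])
  rw [Fintype.card_fin] at h2
  exact h2

open Classical in
theorem LEX_proof (hCIR : CIR_stmt) (hSEL : SEL_stmt) (hUNN : UNN_stmt) : LEX_stmt := by
  intro hPNP m κ p hκ hp w V c hV
  have hao := hCIR.2.2.2.2.1
  have hnot := hCIR.2.2.2.1
  have hmono := hCIR.2.2.1
  obtain ⟨c1, -, hc1⟩ := LEX_poly (c + 2) (c + 6)
  obtain ⟨c2, hc2⟩ := hUNN hPNP c1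
  obtain ⟨c', hc'1, hc'⟩ := LEX_poly (c + 2) (c + 1 + (c + 2) * c2 + 1 + 2)
  refine ⟨c', fun n => ?_⟩
  obtain ⟨hw, hs⟩ := hV n
  -- the NP property
  set f' : BF ((n + w n) + w n) := fun Z => V n (Fin.append (fun i : Fin n => Z (Fin.castAdd (w n) (Fin.castAdd (w n) i)))
      (fun j : Fin (w n) => Z (Fin.natAdd (n + w n) j))) &&
    decide (LEX_lt (fun j : Fin (w n) => Z (Fin.natAdd (n + w n) j)) (fun j : Fin (w n) => Z (Fin.castAdd (w n) (Fin.natAdd n j)))) with hf'
  have hf's : Size std f' ((n + w n) ^ c1 + c1) := by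
    have h1 := hSEL ((n + w n) + w n) (n + w n) (n ^ c + c) (V n)
      (fun i Z => Fin.append (fun i : Fin n => Z (Fin.castAdd (w n) (Fin.castAdd (w n) i)))
        (fun j : Fin (w n) => Z (Fin.natAdd (n + w n) j)) i) hs (by
        intro i
        refine Or.inr ?_
        refine Fin.addCases (fun i => ?_) (fun j => ?_) i
        · exact ⟨Fin.castAdd (w n) (Fin.castAdd (w n) i), by funext Z; rw [Fin.append_left]⟩
        · exact ⟨Fin.natAdd (n + w n) j, by funext Z; rw [Fin.append_right]⟩)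
    have h2 := LEX_size hCIR (N := (n + w n) + w n) (fun j : Fin (w n) => Fin.natAdd (n + w n) j)
      (fun j : Fin (w n) => Fin.castAdd (w n) (Fin.natAdd n j))
    refine hmono _ _ _ _ (hao _ _ _ _ _ h1 h2).1 ?_
    refine le_trans ?_ (hc1 (n + w n))
    set N := n + w n with hN
    have h3 : n ^ c + c ≤ (N + (c + 2)) ^ (c + 1) := LEX_base n c _ (by omega)
    set B := N + (c + 2) with hB
    have hB2 : 2 ≤ B := by omega
    have h4 : N + (w n * (6 * w n + 5) + 1) + 1 ≤ B ^ 5 := by
      have hwN : w n ≤ N := by omega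
      have h5 : N + (w n * (6 * w n + 5) + 1) + 1 ≤ 6 * (N + 1) ^ 2 := by nlinarith
      have h6 : 6 * (N + 1) ^ 2 ≤ 6 * B ^ 2 := Nat.mul_le_mul_left _ (Nat.pow_le_pow_left (by omega) 2)
      have h7 : 6 * B ^ 2 ≤ B ^ 5 := by
        have : 2 ^ 3 ≤ B ^ 3 := Nat.pow_le_pow_left hB2 3
        calc 6 * B ^ 2 ≤ B ^ 3 * B ^ 2 := Nat.mul_le_mul_right _ (by omega)
          _ = B ^ 5 := by ring
      exact h5.trans (h6.trans h7)
    have h5 : B ^ (c + 1) ≤ B ^ (c + 5) := Nat.pow_le_pow_right (by omega) (by omega)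
    have h6 : B ^ 5 ≤ B ^ (c + 5) := Nat.pow_le_pow_right (by omega) (by omega)
    exact LEX_two hB2 (by omega)
  have hww : w n ≤ (n + w n) ^ c1 + c1 := by
    refine le_trans ?_ (hc1 (n + w n))
    calc w n ≤ (n + w n + (c + 2)) ^ 1 := by rw [pow_one]; omega
      _ ≤ _ := Nat.pow_le_pow_right (by omega) (by omega)
  set F : BF (n + w n) := fun z => decide (∃ y' : Fin (w n) → Bool, f' (Fin.append z y') = true) with hF
  have hFs : Size std F ((n + w n) ^ c2 + c2) := hc2 (n + w n) (w n) f' F hww hf's (fun x => by rw [hF]; exact decide_eq_true_iff)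
  -- the value of `F`
  have hFv : ∀ (x : Fin n → Bool) (y : Fin (w n) → Bool), F (Fin.append x y) = true ↔
      ∃ y' : Fin (w n) → Bool, V n (Fin.append x y') = true ∧ LEX_lt y' y := by
    intro x y
    rw [hF]
    simp only [decide_eq_true_iff]
    refine exists_congr fun y' => ?_
    rw [hf']
    simp only [Bool.and_eq_true, decide_eq_true_iff]
    have e1 : (fun i : Fin n => Fin.append (Fin.append x y) y' (Fin.castAdd (w n) (Fin.castAdd (w n) i))) = x := by
      funext i
      rw [Fin.append_left, Fin.append_left]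
    have e2 : (fun j : Fin (w n) => Fin.append (Fin.append x y) y' (Fin.natAdd (n + w n) j)) = y' := by
      funext j
      rw [Fin.append_right]
    have e3 : (fun j : Fin (w n) => Fin.append (Fin.append x y) y' (Fin.castAdd (w n) (Fin.natAdd n j))) = y := by
      funext j
      rw [Fin.append_left, Fin.append_right]
    rw [e1, e2, e3]
  set W : BF (n + w n) := fun z => V n z && !(F z) with hW
  have hWs : Size std W (n ^ c' + c') := by
    refine hmono _ _ _ _ (hao _ _ _ _ _ hs (hnot _ _ _ hFs)).1 ?_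
    refine le_trans ?_ (hc' n)
    have h3 : n ^ c + c ≤ (n + (c + 2)) ^ (c + 1) := LEX_base n c _ (by omega)
    set B := n + (c + 2) with hB
    have hB2 : 2 ≤ B := by omega
    have h4 : n + w n ≤ B ^ (c + 2) := by
      refine LEX_two hB2 ?_
      have h5 : n ≤ B ^ (c + 1) := by
        calc n ≤ B ^ 1 := by rw [pow_one]; omega
          _ ≤ _ := Nat.pow_le_pow_right (by omega) (by omega)
      omega
    have h5 : (n + w n) ^ c2 ≤ B ^ ((c + 2) * c2) := by
      rw [pow_mul]
      exact Nat.pow_le_pow_left h4 c2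
    have h6 : c2 ≤ B ^ ((c + 2) * c2) := by
      calc c2 ≤ B ^ c2 := (Nat.lt_pow_self (by omega)).le
        _ ≤ _ := Nat.pow_le_pow_right (by omega) (by nlinarith)
    set K := c + 1 + (c + 2) * c2 + 1 with hK
    have h7 : B ^ (c + 1) ≤ B ^ K := Nat.pow_le_pow_right (by omega) (by omega)
    have h8 : 2 * B ^ ((c + 2) * c2) ≤ B ^ K := by
      have : B ^ ((c + 2) * c2 + 1) ≤ B ^ K := Nat.pow_le_pow_right (by omega) (by omega)
      refine le_trans ?_ this
      rw [pow_succ]
      nlinarith [Nat.zero_le (B ^ ((c + 2) * c2))]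
    have h9 : 2 ≤ B ^ K := by
      calc 2 ≤ B ^ 1 := by rw [pow_one]; omega
        _ ≤ _ := Nat.pow_le_pow_right (by omega) (by omega)
    refine LEX_two hB2 ?_
    have h10 : 4 * B ^ K ≤ 2 * B ^ (K + 1) := by
      have e : B ^ (K + 1) = B ^ K * B := pow_succ B K
      rw [e]
      have : B ^ K * 2 ≤ B ^ K * B := Nat.mul_le_mul_left _ hB2
      omega
    omega
  refine ⟨1, fun _ => W, le_rfl, by omega, fun _ => hWs, ?_, ?_⟩
  · intro _ z hz
    rw [hW] at hz
    simp only [Bool.and_eq_true] at hz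
    exact hz.1
  · intro x hx _
    have hne : (Finset.univ.filter fun y : Fin (w n) → Bool => V n (Fin.append x y) = true).Nonempty :=
      Finset.card_pos.1 hx
    obtain ⟨y0, hy0, hmin⟩ := Finset.exists_min_image _ (fun y => toLex y) hne
    have hy0' : V n (Fin.append x y0) = true := (Finset.mem_filter.1 hy0).2
    have hwit : wit W x = 1 := by
      unfold wit
      rw [Finset.card_eq_one]
      refine ⟨y0, ?_⟩
      ext y
      simp only [Finset.mem_filter, Finset.mem_univ, true_and, Finset.mem_singleton]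
      rw [hW]
      simp only [Bool.and_eq_true, Bool.not_eq_true']
      constructor
      · rintro ⟨h1, h2⟩
        have h3 : ¬ LEX_lt y0 y := by
          intro h4
          have h5 := (hFv x y).2 ⟨y0, hy0', h4⟩
          rw [h2] at h5
          exact absurd h5 (by simp)
        have h4 : toLex y0 ≤ toLex y := hmin y (Finset.mem_filter.2 ⟨Finset.mem_univ _, h1⟩)
        have h5 : toLex y ≤ toLex y0 := not_lt.1 h3
        exact toLex.injective (le_antisymm h5 h4)
      · rintro rfl
        refine ⟨hy0', ?_⟩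
        rw [← Bool.not_eq_true]
        intro h1
        obtain ⟨y', h2, h3⟩ := (hFv x y).1 h1
        have h4 : toLex y ≤ toLex y' := hmin y' (Finset.mem_filter.2 ⟨Finset.mem_univ _, h2⟩)
        exact absurd h3 (not_lt.2 h4)
    have h1 : (Finset.univ.filter fun _ : Fin 1 => 1 ≤ wit W x ∧ wit W x ≤ κ n) = Finset.univ := by
      refine Finset.filter_true_of_mem fun _ _ => ?_
      rw [hwit]
      exact ⟨le_rfl, hκ n⟩
    have h2 : ((Finset.univ.filter fun _ : Fin 1 => 1 ≤ wit W x ∧ wit W x ≤ κ n).card : ℝ) = 1 := by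
      rw [h1]
      simp
    rw [Nat.cast_one, mul_one]
    exact (hp n).trans h2.ge

end Pool.Agent.ISO
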